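import Pool.Agent.KS6_76.SNE.Val

/-!
# Symmetric equilibria of symmetric games that are zero-sum outside two pairs of strategies
-/

namespace Pool.Agent.KS6_76.SNE

open Pool.Agent.NPC Pool.Agent.NPC.Cnt Pool.Agent.H424R2.PPAD Pool.Agent.H424R2.SG Turing

open Classical in
theorem reduces : EOL.Reduces SymNEnear := by
  obtain ⟨hV⟩ := polyTime_vfun
  set D := tabOf hV.tm hV.inputAlphabet hV.outputAlphabet with hDdef
  have hD : D.Ok := tabOf_ok _ _ _
  have hcs : D.cs.Nodup := Finset.nodup_toList _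
  have has : D.as.Nodup := Finset.nodup_toList _
  have hks : D.ks.Nodup := Finset.nodup_toList _
  set T : Circ × Circ → ℕ := fun I => hV.time.eval (lenI I) * CL.maxDepth hV.tm with hT
  set N : Circ × Circ → ℕ := fun I => lenI I + T I + 1 with hN
  set G : Circ × Circ → List Gate := fun I => net D (bitsI I) (preI I) (N I) (T I) with hG
  set S : Circ × Circ → ℕ := fun I => netStage (bitsI I) (T I) with hS
  have uLen : UPoly lenI := upoly_lenI
  have uT : UPoly T := UPoly.mul (UPoly.eval uLen _) (UPoly.const _)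
  have uN : UPoly N := UPoly.add (UPoly.add uLen uT) (UPoly.const _)
  have uS : UPoly S := UPoly.add (UPoly.add poly_bitsI (UPoly.const _))
    (UPoly.mul (UPoly.const _) uT)
  have pG : NPC.Poly G := poly_net D poly_bitsI uN uT poly_preI
  have pF : NPC.Poly fun I : Circ × Circ => gameMat (parOf nIn nOut (G I) (bitsI I) (S I)) (G I) :=
    poly_gameMat pG poly_bitsI uS fun _ _ hg => net_stage hg
  have pA : NPC.Poly fun q : (Circ × Circ) × List ℚ =>
      ansI q.1 ⌊gval (parOf nIn nOut (G q.1) (bitsI q.1) (S q.1)) (G q.1) q.2 (nIn 0)⌋₊ :=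
    poly_ansI.comp (f := fun q : (Circ × Circ) × List ℚ =>
      (q.1, ⌊gval (parOf nIn nOut (G q.1) (bitsI q.1) (S q.1)) (G q.1) q.2 (nIn 0)⌋₊))
      (Poly.pair (Poly.fst Poly.id)
      (poly_floor (α := (Circ × Circ) × List ℚ) (pG.comp (Poly.fst Poly.id))
        (UPoly.comp poly_bitsI (Poly.fst Poly.id)) (UPoly.comp uS (Poly.fst Poly.id))
        (fun _ _ hg => net_stage hg) (Poly.snd Poly.id)))
  have tF : PTime fun I : Circ × Circ => gameMat (parOf nIn nOut (G I) (bitsI I) (S I)) (G I) :=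
    PTime.of_poly pF
  have tA : PTime fun q : (Circ × Circ) × List ℚ =>
      ansI q.1 ⌊gval (parOf nIn nOut (G q.1) (bitsI q.1) (S q.1)) (G q.1) q.2 (nIn 0)⌋₊ :=
    PTime.of_poly pA
  refine ⟨fun I => gameMat (parOf nIn nOut (G I) (bitsI I) (S I)) (G I),
    fun q => ansI q.1 ⌊gval (parOf nIn nOut (G q.1) (bitsI q.1) (S q.1)) (G q.1) q.2 (nIn 0)⌋₊,
    tF, tA, ?_⟩
  intro I hI
  have hm : 6 ≤ bitsI I := by unfold bitsI; omega
  have hGI : G I = net D (bitsI I) (preI I) (N I) (T I) := rfl
  have v1 : ((G I).map fun g => g.1).Nodup := by rw [hGI]; exact net_nodup hcs has hks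
  have v2 : ∀ e < 2, (nIn e, 0, [], 0) ∈ G I := by
    intro e he; rw [hGI]; simp only [net]; interval_cases e <;> simp [cst]
  have v3 : ∀ e < 2, ∃ f, (nOut e, S I, f) ∈ G I := by
    intro e he
    refine ⟨fadd (vr (nY e 0)) (fsmul (-1) (vr (nY e 1))), ?_⟩
    rw [hGI]
    simp only [net, netFin, List.mem_append, List.mem_flatMap, List.mem_range]
    exact Or.inr ⟨e, he, by simp [hS]⟩
  have v4 : nIn 0 ≠ nIn 1 ∧ nOut 0 ≠ nOut 1 ∧ ∀ e e', nIn e ≠ nOut e' :=
    ⟨by simp [nIn], by simp [nOut], fun e e' => by simp [nIn, nOut]⟩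
  refine ⟨valid _ _ (S I) v1 v2 v3 v4, fun x hx => ?_⟩
  have key := game_spec nIn nOut (G I) (bitsI I) (S I) v1
    (by rw [hGI]; intro g hg; exact net_in hD hg) v2 v3 v4
    (by rw [hGI]; intro v κ hκ hv; exact net_cap (by omega) hκ hv)
    (by omega) (r := 2) hx
  obtain ⟨k1, k2, k3⟩ := key
  have hok := graphOK I hI
  obtain ⟨x', y', h', ht⟩ := net_spec (m := bitsI I) hD hcs has (by omega)
    (by rw [← hGI]; exact k1)
    (fun e _ => k2 _) k3 (T := T I) (N := N I) (pre := preI I)
    (by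
      intro c hc
      have h1 : (preI I c).length + 2 * bitsI I ≤ lenI I := by
        unfold lenI
        interval_cases c <;> omega
      have h2 : N I = lenI I + T I + 1 := rfl
      omega) (colI I) (colN_lt _ _ _)
    (by
      intro c hc a ha b hb w hw h1 h2
      have hB : ((preI I c ++ w).length) ≤ lenI I := by
        rw [List.length_append, hw]
        unfold lenI
        interval_cases c <;> omega
      rw [tabOf_correct hV.tm hV.inputAlphabet hV.outputAlphabet vfun
        (hV.time.eval (preI I c ++ w).length) (T I) (preI I c ++ w)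
        (hV.outputsFun (preI I c ++ w)) (Nat.mul_le_mul_right _ (eval_mono _ hB))]
      unfold preI
      rw [vfun_pair, valB_take ha hw h1, valB_drop hb hw h2]
      simp)
    (colN_B0 _ _ _)
    (by
      intro a b hab
      refine colN_B1 hok a b ?_
      have h1 : 2 ^ bitsI I = 64 * 2 ^ eolN I := by unfold bitsI; rw [pow_add]; ring
      have h2 := Nat.one_le_two_pow (n := eolN I)
      omega)
    (by
      intro a b hab
      refine colN_B2 hok a b ?_
      have h1 : 2 ^ bitsI I = 64 * 2 ^ eolN I := by unfold bitsI; rw [pow_add]; ring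
      have h2 := Nat.one_le_two_pow (n := eolN I)
      omega)
  exact colI_sol I hI _ _ x' y' h' ht

theorem near_hard : PPADHard SymNEnear := reduces.ppadHard

theorem near_le (r : ℕ) (hr : 2 ≤ r) (A : List (List ℚ)) (hA : NearZeroSum A) :
    (SymNE r).Valid A := by
  refine ⟨?_, hA.1, (rank_two A hA).2.le.trans hr⟩
  rintro rfl
  obtain ⟨_, _, c, i, _⟩ := hA
  exact absurd i.2 (by simp)

theorem all_hard (r : ℕ) (hr : 2 ≤ r) : PPADHard (SymNE r) := by
  have h : EOL.Reduces (SymNE r) := by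
    obtain ⟨f, g, hf, hg, h⟩ := reduces
    exact ⟨f, g, hf, hg, fun x hx => ⟨near_le r hr _ (h x hx).1, (h x hx).2⟩⟩
  exact h.ppadHard

end Pool.Agent.KS6_76.SNE
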