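import Pool.Graph.R_seed8.H424R2.SG.Main

/-!
# Symmetric games that are zero-sum outside two pairs of strategies
-/

namespace Pool.Agent.KS6_76.SNE

open Pool.Agent.NPC Pool.Agent.NPC.Cnt Pool.Agent.H424R2.PPAD Pool.Agent.H424R2.SG Turing Matrix

/-- The square matrix `A` (list of its rows) has integer entries and
`A + Aᵀ = c (u uᵀ + v vᵀ)`, where `c > 0` is an integer and `u`, `v` are the characteristic
vectors of two disjoint pairs `{i₁, i₂}`, `{j₁, j₂}` of strategies. -/
def NearZeroSum (A : List (List ℚ)) : Prop :=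
  (∀ a ∈ A, a.length = A.length) ∧ (∀ a ∈ A, ∀ q ∈ a, ∃ z : ℤ, q = z) ∧
  ∃ (c : ℤ) (i₁ i₂ j₁ j₂ : Fin A.length), 0 < c ∧ i₁ ≠ i₂ ∧ j₁ ≠ j₂ ∧
    i₁ ≠ j₁ ∧ i₁ ≠ j₂ ∧ i₂ ≠ j₁ ∧ i₂ ≠ j₂ ∧
    ∀ i j, mat A i j + mat A j i =
      if ((i = i₁ ∨ i = i₂) ∧ (j = i₁ ∨ j = i₂)) ∨ ((i = j₁ ∨ i = j₂) ∧ (j = j₁ ∨ j = j₂))
      then (c : ℝ) else 0

/-- The search problem: given such a matrix, find a symmetric Nash equilibrium of `(A, Aᵀ)`. -/
def SymNEnear : SearchProblem where
  Inst := List (List ℚ)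
  Sol := List ℚ
  encInst := inferInstance
  encSol := inferInstance
  Valid A := NearZeroSum A
  IsSol A x := x.length = A.length ∧ IsNash (mat A) (mat A)ᵀ (vec A.length x) (vec A.length x)

theorem mem1 {P : Par} {G : List Gate} {x : St} (hx : x ∈ strats P G) (h : x.1 = 1) :
    ∃ g ∈ G, x = (1, 0, 0, g) := by
  simp only [strats, List.mem_cons, List.mem_append, List.mem_map, List.mem_flatMap,
    List.mem_range] at hx
  rcases hx with rfl | ⟨g, hg, rfl⟩ | ⟨g, hg, rfl⟩ | ⟨e, _, j, _, hh⟩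
  · simp at h
  · exact ⟨g, hg, rfl⟩
  · simp at h
  · simp at hh
    rcases hh with rfl | rfl <;> simp at h

theorem mem2 {P : Par} {G : List Gate} {x : St} (hx : x ∈ strats P G) (h : x.1 = 2) :
    ∃ g ∈ G, x = (2, 0, 0, g) := by
  simp only [strats, List.mem_cons, List.mem_append, List.mem_map, List.mem_flatMap,
    List.mem_range] at hx
  rcases hx with rfl | ⟨g, hg, rfl⟩ | ⟨g, hg, rfl⟩ | ⟨e, _, j, _, hh⟩
  · simp at h
  · simp at h
  · exact ⟨g, hg, rfl⟩
  · simp at hh
    rcases hh with rfl | rfl <;> simp at h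

theorem in1 {P : Par} {G : List Gate} {g : Gate} (hg : g ∈ G) :
    ((1, 0, 0, g) : St) ∈ strats P G := by
  simp [strats, hg]

theorem in2 {P : Par} {G : List Gate} {g : Gate} (hg : g ∈ G) :
    ((2, 0, 0, g) : St) ∈ strats P G := by
  simp [strats, hg]

theorem uniq {G : List Gate} (hG : (G.map fun g => g.1).Nodup) {g g' : Gate}
    (h : g ∈ G) (h' : g' ∈ G) (e : g.1 = g'.1) : g = g' := List.inj_on_of_nodup_map hG h h' e

theorem valid (P : Par) (G : List Gate) (S : ℕ) (hG : (G.map fun g => g.1).Nodup)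
    (hgi : ∀ e < 2, (P.inn e, 0, [], 0) ∈ G) (hgo : ∀ e < 2, ∃ f, (P.out e, S, f) ∈ G)
    (hne : P.inn 0 ≠ P.inn 1 ∧ P.out 0 ≠ P.out 1 ∧ ∀ e e', P.inn e ≠ P.out e') :
    NearZeroSum (gameMat P G) := by
  have hlen := gameA_length P G
  have H0 : 0 < 2 := by norm_num
  have H1 : 1 < 2 := by norm_num
  choose f hf using hgo
  -- the four strategies
  let sI : (e : ℕ) → e < 2 → St := fun e _ => (2, 0, 0, (P.inn e, 0, [], 0))
  let sO : (e : ℕ) → e < 2 → St := fun e he => (1, 0, 0, (P.out e, S, f e he))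
  have hsI : ∀ e he, sI e he ∈ strats P G := fun e he => in2 (hgi e he)
  have hsO : ∀ e he, sO e he ∈ strats P G := fun e he => in1 (hf e he)
  have hidx : ∀ x ∈ strats P G, (strats P G).idxOf x < (gameMat P G).length := by
    intro x hx
    rw [hlen]
    exact List.idxOf_lt_length_of_mem hx
  have hnd := GameB_nodup P G hG
  let st : Fin (gameMat P G).length → St := fun i => (strats P G)[i.1]'(by rw [← hlen]; exact i.2)
  have hst : ∀ i, st i ∈ strats P G := fun i => List.getElem_mem _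
  have hinj : ∀ i (x : St) (hx : x ∈ strats P G),
      i = (⟨(strats P G).idxOf x, hidx x hx⟩ : Fin (gameMat P G).length) ↔ st i = x := by
    intro i x hx
    constructor
    · rintro rfl
      exact List.getElem_idxOf _
    · intro h
      apply Fin.ext
      show i.1 = (strats P G).idxOf x
      rw [← h]
      exact (hnd.idxOf_getElem _ _).symm
  have hI : ∀ e (he : e < 2), ∀ x ∈ strats P G, isI P e x = true ↔ x = sI e he := by
    intro e he x hx
    simp only [isI, decide_eq_true_eq]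
    constructor
    · rintro ⟨h1, h2⟩
      obtain ⟨g, hg, rfl⟩ := mem2 hx h1
      have := uniq hG hg (hgi e he) h2
      rw [this]
    · rintro rfl
      exact ⟨rfl, rfl⟩
  have hO : ∀ e (he : e < 2), ∀ x ∈ strats P G, isO P e x = true ↔ x = sO e he := by
    intro e he x hx
    simp only [isO, decide_eq_true_eq]
    constructor
    · rintro ⟨h1, h2⟩
      obtain ⟨g, hg, rfl⟩ := mem1 hx h1
      have := uniq hG hg (hf e he) h2
      rw [this]
    · rintro rfl
      exact ⟨rfl, rfl⟩
  let iI : (e : ℕ) → e < 2 → Fin (gameMat P G).length :=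
    fun e he => ⟨(strats P G).idxOf (sI e he), hidx _ (hsI e he)⟩
  let iO : (e : ℕ) → e < 2 → Fin (gameMat P G).length :=
    fun e he => ⟨(strats P G).idxOf (sO e he), hidx _ (hsO e he)⟩
  have hiI : ∀ e he i, i = iI e he ↔ st i = sI e he := fun e he i => hinj i _ (hsI e he)
  have hiO : ∀ e he i, i = iO e he ↔ st i = sO e he := fun e he i => hinj i _ (hsO e he)
  have sti : ∀ e he, st (iI e he) = sI e he := fun e he => (hiI e he _).1 rfl
  have sto : ∀ e he, st (iO e he) = sO e he := fun e he => (hiO e he _).1 rfl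
  have hav : ∀ e (he : e < 2) i, avec P e (st i) =
      if i = iI e he ∨ i = iO e he then 2 ^ P.h else 0 := by
    intro e he i
    exact if_congr (or_congr ((hI e he _ (hst i)).trans (hiI e he i).symm)
      ((hO e he _ (hst i)).trans (hiO e he i).symm)) rfl rfl
  have n1 : ∀ e he e' he', iI e he ≠ iO e' he' := by
    intro e he e' he' h
    have := congrArg st h
    rw [sti e he, sto e' he'] at this
    simp [sI, sO] at this
  have n2 : iI 0 H0 ≠ iI 1 H1 := by
    intro h
    have := congrArg st h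
    rw [sti 0 H0, sti 1 H1] at this
    simp [sI, hne.1] at this
  have n3 : iO 0 H0 ≠ iO 1 H1 := by
    intro h
    have := congrArg st h
    rw [sto 0 H0, sto 1 H1] at this
    simp [sO, hne.2.1] at this
  refine ⟨?_, ?_, 2 * (2 ^ P.h * 2 ^ P.h), iI 0 H0, iO 0 H0,
    iI 1 H1, iO 1 H1, by positivity, n1 0 H0 0 H0, n1 1 H1 1 H1, n2, n1 0 H0 1 H1,
    (n1 1 H1 0 H0).symm, n3, ?_⟩
  · intro a ha
    rw [hlen]
    simp only [gameMat, List.mem_map] at ha
    obtain ⟨x, _, rfl⟩ := ha
    simp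
  · intro a ha q hq
    simp only [gameMat, List.mem_map] at ha
    obtain ⟨x, _, rfl⟩ := ha
    simp only [List.mem_map] at hq
    obtain ⟨y, _, rfl⟩ := hq
    exact ⟨_, rfl⟩
  · intro i j
    have hi : i.1 < (strats P G).length := by rw [← hlen]; exact i.2
    have hj : j.1 < (strats P G).length := by rw [← hlen]; exact j.2
    simp only [mat]
    rw [gameA_entry P G i.1 j.1 hi hj, gameA_entry P G j.1 i.1 hj hi]
    have h1 := gameA_sym P (st i) (st j)
    have h2 : ((entry P ((strats P G)[i.1]) ((strats P G)[j.1]) : ℤ) : ℝ) +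
        ((entry P ((strats P G)[j.1]) ((strats P G)[i.1]) : ℤ) : ℝ) =
        ((2 * (avec P 0 (st i) * avec P 0 (st j)) + 2 * (avec P 1 (st i) * avec P 1 (st j)) : ℤ)
          : ℝ) := by
      rw [← h1]
      push_cast
      rfl
    push_cast
    push_cast at h2
    rw [h2, hav 0 H0 i, hav 0 H0 j, hav 1 H1 i,
      hav 1 H1 j]
    have e1 := n1 0 H0 0 H0
    have e2 := n1 0 H0 1 H1
    have e3 := n1 1 H1 0 H0
    have e4 := n1 1 H1 1 H1
    have key : ∀ k, ¬ ((k = iI 0 H0 ∨ k = iO 0 H0) ∧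
        (k = iI 1 H1 ∨ k = iO 1 H1)) := by
      rintro k ⟨rfl | rfl, h | h⟩
      · exact n2 h
      · exact e2 h
      · exact e3 h.symm
      · exact n3 h
    have ki := key i
    have kj := key j
    by_cases a0 : (i = iI 0 H0 ∨ i = iO 0 H0) <;>
    by_cases a1 : (i = iI 1 H1 ∨ i = iO 1 H1) <;>
    by_cases b0 : (j = iI 0 H0 ∨ j = iO 0 H0) <;>
    by_cases b1 : (j = iI 1 H1 ∨ j = iO 1 H1) <;>
    simp only [a0, a1, b0, b1, if_true, if_false, and_true, and_false,
      or_true, or_false, not_true, not_false_eq_true] at ki kj ⊢ <;> push_cast <;> ring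

/-- `A + Aᵀ` is positive semidefinite of rank two. -/
theorem rank_two (A : List (List ℚ)) (hA : NearZeroSum A) :
    (mat A + (mat A)ᵀ).PosSemidef ∧ (mat A + (mat A)ᵀ).rank = 2 := by
  obtain ⟨_, _, c, i₁, i₂, j₁, j₂, hc, h1, h2, h3, h4, h5, h6, h⟩ := hA
  have hcr : (0 : ℝ) < c := by exact_mod_cast hc
  let U : Matrix (Fin A.length) (Fin 2) ℝ := fun i e =>
    if e = 0 then (if i = i₁ ∨ i = i₂ then √c else 0) else (if i = j₁ ∨ i = j₂ then √c else 0)
  have hU : mat A + (mat A)ᵀ = U * Uᵀ := by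
    ext i j
    simp only [Matrix.add_apply, Matrix.transpose_apply, Matrix.mul_apply, Fin.sum_univ_two, U,
      if_true]
    rw [h i j]
    have hs : √(c : ℝ) * √(c : ℝ) = c := Real.mul_self_sqrt hcr.le
    have key : ∀ k, ¬ ((k = i₁ ∨ k = i₂) ∧ (k = j₁ ∨ k = j₂)) := by
      rintro k ⟨rfl | rfl, h' | h'⟩
      · exact h3 h'
      · exact h4 h'
      · exact h5 h'
      · exact h6 h'
    have ki := key i
    have kj := key j
    by_cases a0 : (i = i₁ ∨ i = i₂) <;>
    by_cases a1 : (i = j₁ ∨ i = j₂) <;>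
    by_cases b0 : (j = i₁ ∨ j = i₂) <;>
    by_cases b1 : (j = j₁ ∨ j = j₂) <;>
    simp [a0, a1, b0, b1, hs] at ki kj ⊢
  have hUr : U.rank = 2 := by
    apply le_antisymm
    · exact (Matrix.rank_le_card_width U).trans (by simp)
    · have hli : LinearIndependent ℝ (Uᵀ).row := by
        rw [Fintype.linearIndependent_iff]
        intro g hg
        have hs : √(c : ℝ) ≠ 0 := (Real.sqrt_pos.2 hcr).ne'
        have ha := congrFun hg i₁
        have hb := congrFun hg j₁
        simp [Matrix.row, U, h3, h4, hs] at ha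
        simp [Matrix.row, U, h3.symm, h5.symm, hs] at hb
        intro i
        fin_cases i
        · exact ha
        · exact hb
      have := hli.rank_matrix
      rw [Matrix.rank_transpose, Fintype.card_fin] at this
      exact this.ge
  refine ⟨?_, ?_⟩
  · rw [hU, ← Matrix.conjTranspose_eq_transpose_of_trivial]
    exact Matrix.posSemidef_self_mul_conjTranspose U
  · rw [hU, Matrix.rank_self_mul_transpose, hUr]

end Pool.Agent.KS6_76.SNE
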